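import Pool.Agent.Lib.MP_2c6a5a_lc.ClMain
import Pool.Agent.Lib.MP_2c6a5a_lc.U.Conv

open Pool.Agent.Lib.MP_2c6a5a_lc.Cl

/-- A pattern of truth values of the eight hypotheses DisjNP, CON^N, CON, UP, NP∩coNP,
SAT, TFNP, DisjCoNP is realised by an oracle if and only if it obeys ten implications. -/
theorem Pool.Agent.Results.MP_2c6a5a_lc.Classification.result (a b c d e f g h : Prop) :
    (∃ A : List Bool → Bool,
      (DisjNP A ↔ a) ∧ (CONN A ↔ b) ∧ (CON A ↔ c) ∧ (HypUP A ↔ d) ∧ (HypNPcoNP A ↔ e) ∧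
        (SAT A ↔ f) ∧ (TFNP A ↔ g) ∧ (DisjCoNP A ↔ h)) ↔
    ((a → b) ∧ (b → c) ∧ (d → c) ∧ (h → g) ∧ (g → f) ∧ (c → b ∨ f) ∧ (f → c ∨ g) ∧
      (d → a ∨ f) ∧ (e → a ∨ f) ∧ (e → c ∨ h)) := by
  constructor
  · rintro ⟨A, ha, hb, hc, hd, he, hf, hg, hh⟩
    have H := Pool.Agent.Lib.MP_2c6a5a_lc.Cl.ten A
    rw [ha, hb, hc, hd, he, hf, hg, hh] at H
    exact H
  · rintro ⟨h1, h2, h3, h4, h5, h6, h7, h8, h9, h10⟩
    exact Pool.Agent.Lib.MP_2c6a5a_lc.Cl.main a b c d e f g h h1 h2 h3 h4 h5 h6 h7 h8 h9 h10
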