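import Pool.Agent.Lib.MP_2c6a5a_lc.RO.Main
import Pool.Agent.Lib.MP_2c6a5a_lc.NC.Main

open MeasureTheory Pool.Agent.Lib.MP_2c6a5a_lc.Cl

/-- Relative to a random oracle every hypothesis of the list holds with probability one. -/
theorem Pool.Agent.Results.MP_2c6a5a_lc.RandomOracle.result :
    ∀ᵐ A ∂(Measure.infinitePi fun _ : List Bool => (PMF.uniformOfFintype Bool).toMeasure),
      ∀ H ∈ [DisjNP, CONN, CON, HypUP, HypNPcoNP, SAT, TFNP, DisjCoNP], H A := by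
  filter_upwards [Pool.Agent.Lib.MP_2c6a5a_lc.RO.ae_np, Pool.Agent.Lib.MP_2c6a5a_lc.RO.ae_co,
    Pool.Agent.Lib.MP_2c6a5a_lc.RO.ae_up, Pool.Agent.Lib.MP_2c6a5a_lc.RO.ae_nc] with A a b c d
  simp only [List.forall_mem_cons, List.not_mem_nil, false_imp_iff, implies_true, and_true]
  refine ⟨a, disjNP_conn a, up_con c, c, fun ⟨C, hC, H⟩ => ?_, tfnp_sat (disjCoNP_tfnp b),
    disjCoNP_tfnp b, b⟩
  obtain ⟨B, ⟨S, h1, h2, -⟩, ⟨T, h3, h4, -⟩, e⟩ := d C hC.1 hC.2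
  exact e (H B ⟨⟨S, h1, h2⟩, T, h3, h4⟩)
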