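import Pool.Agent.Lib.MP_2c6a5a_lc.PfMain

open Pool.Agent.Lib.MP_8a52c3_lc.Orc

/-- An oracle relative to which TFNP has no many-one complete problem, while every nonempty
coNP set has a p-optimal proof system and all disjoint coNP pairs and all disjoint NP pairs
are P-separable. -/
theorem Pool.Agent.Results.MP_2c6a5a_lc.TFNPAlone.result : ∃ A : List Bool → Bool,
    (¬ ∃ T, IsTFNP A T ∧ ∀ S, IsTFNP A S → Reduces A S T) ∧
    (∀ L : Set (List Bool), L.Nonempty → InNP A Lᶜ → ∃ P, FP1 A P ∧ Set.range P = L ∧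
      ∀ Q, FP1 A Q → Set.range Q = L → ∃ f, FP1 A f ∧ ∀ d, P (f d) = Q d) ∧
    (∀ B₀ B₁ : Set (List Bool), InNP A B₀ᶜ → InNP A B₁ᶜ → Disjoint B₀ B₁ → PSeparable A B₀ B₁) ∧
    (∀ B₀ B₁ : Set (List Bool), InNP A B₀ → InNP A B₁ → Disjoint B₀ B₁ → PSeparable A B₀ B₁) :=
  Pool.Agent.Lib.MP_2c6a5a_lc.Pf.main
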