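import Pool.Agent.Lib.MP_2c6a5a_lc.MxMain

open Pool.Agent.Lib.MP_8a52c3_lc.Orc Pool.Agent.Lib.MP_2c6a5a_lc.Mx

/-- An oracle relative to which TFNP has a many-one complete problem, while some NP set has no
p-optimal proof system and its complement has no length-optimal one, and no disjoint NP pair
and no UP set is hard for the sets in UP whose complement is in UP. -/
theorem Pool.Agent.Results.MP_2c6a5a_lc.TFNPComplete.result : ∃ A : List Bool → Bool,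
    (∃ T, IsTFNP A T ∧ ∀ S, IsTFNP A S → Reduces A S T) ∧
    (∃ L : Set (List Bool), L.Nonempty ∧ Lᶜ.Nonempty ∧ InNP A L ∧
      (¬ ∃ P, FP1 A P ∧ Set.range P = L ∧
        ∀ Q, FP1 A Q → Set.range Q = L → ∃ f, FP1 A f ∧ ∀ d, P (f d) = Q d) ∧
      ¬ ∃ P, FP1 A P ∧ Set.range P = Lᶜ ∧ ∀ Q, FP1 A Q → Set.range Q = Lᶜ →
        ∃ k, ∀ d, ∃ π, π.length ≤ d.length ^ k + k ∧ P π = Q d) ∧
    (∀ B₀ B₁ : Set (List Bool), InNP A B₀ → InNP A B₁ → Disjoint B₀ B₁ →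
      ∃ S, InUP A S ∧ InUP A Sᶜ ∧
        ¬ ∃ f, FP1 A f ∧ ∀ x, (x ∈ S → f x ∈ B₀) ∧ (x ∉ S → f x ∈ B₁)) ∧
    ∀ B : Set (List Bool), InUP A B →
      ∃ S, InUP A S ∧ InUP A Sᶜ ∧ ¬ ∃ f, FP1 A f ∧ ∀ x, x ∈ S ↔ f x ∈ B :=
  Pool.Agent.Lib.MP_2c6a5a_lc.Mx.main
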